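import Mathlib
import Pool.Agent.Y22.RN3
import Pool.Agent.Helper519.BasisBound
import Pool.Agent.Results.MP_317a58_an.RenormIndex

set_option autoImplicit false

namespace Pool.Agent.Results.MP_317a58_an.DenseRenormings

open scoped Topology ENNReal
open Filter
open Pool.Agent.Results.MP_317a58_an.RenormIndex
open Pool.Agent.Helper519.Schauder

/-- Close to every norm of an infinite-dimensional space there is a norm such that, for all norms
in a neighbourhood of it, the finite-rank projections that almost fix four given vectors have norm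
larger than a constant `c > 1` depending only on `ε`; if the space is a Banach space with a basis,
the index of all these norms is positive and at most `1 / c`. -/
theorem result (𝕜 : Type*) [RCLike 𝕜] (E : Type*) [NormedAddCommGroup E] [NormedSpace 𝕜 E]
    (hE : ¬ FiniteDimensional 𝕜 E) (N₀ : Seminorm 𝕜 E) (h₀ : IsEquivalentNorm N₀)
    (ε c : ℝ) (h1 : 0 < ε) (h2 : ε ≤ 1) (hc : c = 1 + ε ^ 6 / 10 ^ 19) :
    ∃ N : Seminorm 𝕜 E, (∀ x, N₀ x ≤ (1 + ε) * N x ∧ N x ≤ (1 + ε) * N₀ x) ∧
      ∃ (F : Finset E) (δ : ℝ), F.card ≤ 4 ∧ 0 < δ ∧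
        ∀ N' : Seminorm 𝕜 E, (∀ x, N x ≤ c * N' x ∧ N' x ≤ c * N x) →
          (∀ P : E →ₗ[𝕜] E, (∀ x, P (P x) = P x) → FiniteDimensional 𝕜 (LinearMap.range P) →
            (∀ x ∈ F, ‖P x - x‖ ≤ δ) → ∃ x, c * N' x < N' (P x)) ∧
          (CompleteSpace E → (∃ e : ℕ → E, IsSchauderBasis 𝕜 e) →
            IsEquivalentNorm N' ∧ 0 < index N' ∧ index N' ≤ ENNReal.ofReal (1 / c) ∧
              index N' < 1) := by
  obtain ⟨a₀, C₀, ha₀, hC₀, hN₀⟩ := h₀
  obtain ⟨N, hN, F, δ, hF4, hδ, hmain⟩ := Pool.Agent.Y22.RN.main' N₀ (fun x hx => by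
    have := (hN₀ x).1
    rw [hx] at this
    have h3 : ‖x‖ ≤ 0 := by
      by_contra hcon
      push Not at hcon
      have := mul_pos ha₀ hcon
      linarith
    exact norm_le_zero_iff.mp h3) hE ε h1 h2
  have hs : 0 < ε ^ 6 / 10 ^ 19 := by positivity
  have hs1 : ε ^ 6 / 10 ^ 19 ≤ 1 / 4 := by
    have : ε ^ 6 ≤ 1 := pow_le_one₀ h1.le h2
    rw [div_le_iff₀ (by positivity)]
    linarith [this]
  have hc1 : 1 < c := by rw [hc]; linarith
  have hc0 : 0 < c := by linarith
  have hc3 : c ^ 3 ≤ 1 + 4 * (ε ^ 6 / 10 ^ 19) := by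
    rw [hc]
    set s : ℝ := ε ^ 6 / 10 ^ 19
    nlinarith [mul_pos hs hs, mul_pos (mul_pos hs hs) hs]
  refine ⟨N, hN, F, δ / C₀, hF4, by positivity, fun N' hN' => ?_⟩
  have hproj : ∀ P : E →ₗ[𝕜] E, (∀ x, P (P x) = P x) →
      FiniteDimensional 𝕜 (LinearMap.range P) → (∀ x ∈ F, ‖P x - x‖ ≤ δ / C₀) →
      ∃ x, c * N' x < N' (P x) := by
    intro P hPP hfin hPF
    obtain ⟨x, hx⟩ := hmain P hPP hfin (fun x hx => by
      refine (hN₀ _).2.trans ?_
      have := mul_le_mul_of_nonneg_left (hPF x hx) hC₀.le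
      rwa [mul_div_cancel₀ _ hC₀.ne'] at this)
    refine ⟨x, ?_⟩
    by_contra hcon
    push Not at hcon
    have h3 : N (P x) ≤ c ^ 3 * N x := by
      calc N (P x) ≤ c * N' (P x) := (hN' _).1
        _ ≤ c * (c * N' x) := mul_le_mul_of_nonneg_left hcon hc0.le
        _ ≤ c * (c * (c * N x)) := by
          have := (hN' x).2
          gcongr
        _ = c ^ 3 * N x := by ring
    have h4 : c ^ 3 * N x ≤ (1 + 4 * (ε ^ 6 / 10 ^ 19)) * N x :=
      mul_le_mul_of_nonneg_right hc3 (apply_nonneg _ _)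
    linarith
  refine ⟨hproj, fun hcomp ⟨e, he⟩ => ?_⟩
  -- constants of equivalence
  have hlow : ∀ x : E, a₀ / (2 * c) * ‖x‖ ≤ N' x := by
    intro x
    have h3 := (hN₀ x).1
    have h4 := (hN x).1
    have h5 := (hN' x).1
    have h6 : N₀ x ≤ 2 * N x :=
      h4.trans (mul_le_mul_of_nonneg_right (by linarith) (apply_nonneg _ _))
    rw [div_mul_eq_mul_div, div_le_iff₀ (by positivity)]
    linarith
  have hupp : ∀ x : E, N' x ≤ 2 * c * C₀ * ‖x‖ := by
    intro x
    have h3 := (hN₀ x).2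
    have h4 := (hN x).2
    have h5 := (hN' x).2
    have h6 : N x ≤ 2 * N₀ x :=
      h4.trans (mul_le_mul_of_nonneg_right (by linarith) (apply_nonneg _ _))
    calc N' x ≤ c * (2 * (C₀ * ‖x‖)) := by
          refine h5.trans (mul_le_mul_of_nonneg_left ?_ hc0.le)
          linarith
      _ = _ := by ring
  have hq : 0 < a₀ / (2 * c) := by positivity
  refine ⟨⟨a₀ / (2 * c), 2 * c * C₀, hq, by positivity, fun x => ⟨hlow x, hupp x⟩⟩, ?_⟩
  have he' : IsBasis 𝕜 e := he
  obtain ⟨K, hK, hKx⟩ := exists_bound he'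
  have hle : index N' ≤ ENNReal.ofReal (1 / c) := by
    rw [one_div, ENNReal.ofReal_inv_of_pos hc0]
    refine iSup_le fun g => iSup_le fun hg => ?_
    rw [ENNReal.inv_le_inv]
    by_contra hlt
    rw [not_le] at hlt
    have hg' : IsBasis 𝕜 g := hg
    -- a partial sum projection that almost fixes `F`
    have hev : ∀ᶠ n in atTop, ∀ x ∈ F, ‖S hg' n x - x‖ ≤ δ / C₀ := by
      rw [Filter.eventually_all_finset]
      intro x _
      have h3 := (Metric.tendsto_nhds.mp (S_tendsto hg' x)) (δ / C₀) (by positivity)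
      filter_upwards [h3] with n hn
      rw [dist_eq_norm] at hn
      exact hn.le
    obtain ⟨n, hn⟩ := hev.exists
    have hfin : FiniteDimensional 𝕜 (LinearMap.range (S hg' n)) := by
      have h4 : FiniteDimensional 𝕜 (Submodule.span 𝕜 (g '' (Finset.range n : Set ℕ))) :=
        FiniteDimensional.span_of_finite 𝕜 ((Finset.finite_toSet _).image g)
      exact Submodule.finiteDimensional_of_le (S₂ := Submodule.span 𝕜 (g '' (Finset.range n : Set ℕ)))
        (by
          rintro _ ⟨x, rfl⟩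
          exact S_mem hg' n x)
    obtain ⟨x, hx⟩ := hproj (S hg' n) (S_S hg' n) hfin hn
    have hNx : 0 < N' x := by
      by_contra h0
      have h5 : N' x = 0 := le_antisymm (not_lt.mp h0) (apply_nonneg _ _)
      have h6 := hlow x
      rw [h5] at h6
      have h7 : ‖x‖ ≤ 0 := by
        by_contra hcon
        push Not at hcon
        have := mul_pos hq hcon
        linarith
      have h8 : x = 0 := norm_le_zero_iff.mp h7
      have h9 : S hg' n x = 0 := by rw [h8, map_zero]
      have h10 : N' (0 : E) = 0 := map_zero N'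
      rw [h9, h10, h5, mul_zero] at hx
      exact lt_irrefl _ hx
    set y : E := (((N' x)⁻¹ : ℝ) : 𝕜) • x with hy
    have hNy : N' y ≤ 1 := by
      rw [hy, map_smul_eq_mul, RCLike.norm_ofReal, abs_of_pos (by positivity),
        inv_mul_cancel₀ hNx.ne']
    have h3 : ENNReal.ofReal (N' (S hg' n y)) ≤ basisConstant N' g := by
      have h4 := le_iSup₂ (f := fun (x : E) (_ : N' x ≤ 1) => ⨆ (a : ℕ → 𝕜)
        (_ : Tendsto (fun n : ℕ => ∑ i ∈ Finset.range n, a i • g i) atTop (𝓝 x)) (n : ℕ),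
        ENNReal.ofReal (N' (∑ i ∈ Finset.range n, a i • g i))) y hNy
      refine le_trans ?_ h4
      have h5 := le_iSup₂ (f := fun (a : ℕ → 𝕜)
        (_ : Tendsto (fun n : ℕ => ∑ i ∈ Finset.range n, a i • g i) atTop (𝓝 y)) =>
        ⨆ (n : ℕ), ENNReal.ofReal (N' (∑ i ∈ Finset.range n, a i • g i))) (coef hg' y)
        (coef_spec hg' y)
      refine le_trans ?_ h5
      exact le_iSup (fun n : ℕ => ENNReal.ofReal (N' (∑ i ∈ Finset.range n,
        coef hg' y i • g i))) n
    have h6 : N' (S hg' n y) ≤ c := by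
      have := (h3.trans hlt.le)
      rwa [ENNReal.ofReal_le_ofReal_iff hc0.le] at this
    rw [hy, map_smul, map_smul_eq_mul, RCLike.norm_ofReal, abs_of_pos (by positivity),
      inv_mul_le_iff₀ hNx] at h6
    linarith
  refine ⟨?_, hle, lt_of_le_of_lt hle ?_⟩
  · -- positivity of the index
    have hfin : basisConstant N' e ≤ ENNReal.ofReal (2 * c * C₀ * (K * (1 / (a₀ / (2 * c))))) := by
      refine iSup_le fun x => iSup_le fun hx => iSup_le fun a => iSup_le fun ha => iSup_le fun n => ?_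
      apply ENNReal.ofReal_le_ofReal
      have ha' : a = coef he' x := coef_unique he' x a ha
      have h3 : ∑ i ∈ Finset.range n, a i • e i = S he' n x := by rw [ha', S_apply]
      rw [h3]
      have h4 := hKx n x
      have h5 : ‖x‖ ≤ 1 / (a₀ / (2 * c)) := by
        rw [le_div_iff₀ hq]
        linarith [hlow x]
      calc _ ≤ 2 * c * C₀ * ‖S he' n x‖ := hupp _
        _ ≤ _ := by
          apply mul_le_mul_of_nonneg_left _ (by positivity)
          exact h4.trans (mul_le_mul_of_nonneg_left h5 hK.le)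
    have h3 : (basisConstant N' e)⁻¹ ≤ index N' :=
      le_iSup₂ (f := fun (e : ℕ → E) (_ : IsSchauderBasis 𝕜 e) => (basisConstant N' e)⁻¹) e he
    refine lt_of_lt_of_le ?_ h3
    rw [ENNReal.inv_pos]
    exact ne_top_of_le_ne_top ENNReal.ofReal_ne_top hfin
  · rw [← ENNReal.ofReal_one]
    apply (ENNReal.ofReal_lt_ofReal_iff one_pos).mpr
    rw [div_lt_one hc0]
    exact hc1

end Pool.Agent.Results.MP_317a58_an.DenseRenormings
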